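import Pool.Agent.G02.StmtsR

/-!
# Squad G02, row CL2
-/

set_option autoImplicit false

namespace Pool.Agent.G02.H95

open Pool.Agent.G02

noncomputable section

theorem cl2 (hSEC : SecStmt) : Cl2Stmt := by
  intro W e a b hR hb S hS h1 L _ _ _ β hQ P hP
  rcases P with _ | ⟨x, y, h⟩
  · exact ⟨1, h1, by
      change IsSquare (algebraMap ℚ L 1)
      rw [map_one]
      exact ⟨1, by ring⟩⟩
  · have hD : (x ≠ e → IsSquare (1 * (x - e))) ∧ (x = e → IsSquare (1 * b)) := hP
    by_cases hx : x = e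
    · exact absurd (by simpa using hD.2 hx) hb
    · obtain ⟨s, hs⟩ := hD.1 hx
      have hs2 : x - e = s ^ 2 := by rw [sq, ← hs]; ring
      have hs0 : s ≠ 0 := by
        intro h0
        apply hx
        rw [h0] at hs2
        have : x - e = 0 := by rw [hs2]; ring
        exact sub_eq_zero.mp this
      obtain ⟨hz0, hz2, hz3⟩ := hSEC W e a b hR L β hQ x y s h hs0 hs2 _ rfl
      set z : ℚ := a + 2 * s ^ 2 + (2 * y + W.a₁ * x + W.a₃) / s with hz
      obtain ⟨c, hc, hcs⟩ := hS z (2 * s * z) hz0 hz2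
      refine ⟨c, hc, (hz3 c).2 ?_⟩
      rcases hcs with hcs | hcs
      · exact hcs.map (algebraMap ℚ L)
      · obtain ⟨w, hw⟩ := hcs.map (algebraMap ℚ L)
        have hβ : β ^ 2 = algebraMap ℚ L (a ^ 2 - 4 * b) := hQ.sq
        have hβ0 : β ≠ 0 := by
          have h0 := hQ.nr 0
          rwa [map_zero] at h0
        refine ⟨w / β, ?_⟩
        have h2 : w / β * (w / β) = (w * w) / β ^ 2 := by
          field_simp
        rw [h2, ← hw, hβ, map_mul, map_mul, map_mul]
        have h3 : algebraMap ℚ L (a ^ 2 - 4 * b) ≠ 0 := by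
          rw [← hβ]
          exact pow_ne_zero 2 hβ0
        rw [eq_div_iff h3]
        ring

end

end Pool.Agent.G02.H95
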