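import Pool.Agent.G02.Stmts

set_option autoImplicit false

namespace Pool.Agent.G02.H95

open Pool.Agent.NJ

lemma leg_two {l : ℕ} [Fact l.Prime] (h : l % 8 = 3) : legendreSym l 2 = -1 := by
  have h2 : l ≠ 2 := by omega
  rw [legendreSym.at_two h2, ZMod.χ₈_nat_eq_if_mod_eight]
  rw [if_neg (by omega), if_neg (by omega)]

lemma leg_neg {l : ℕ} [Fact l.Prime] (h : l % 8 = 3) : legendreSym l (-1) = -1 := by
  have h2 : l ≠ 2 := by omega
  rw [legendreSym.at_neg_one h2]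
  exact ZMod.χ₄_nat_three_mod_four (by omega)

/-- the symbol of a square factor can be removed -/
lemma leg_sq {l : ℕ} [Fact l.Prime] (x y : ℤ) (h : ¬ (l : ℤ) ∣ x) :
    legendreSym l (x ^ 2 * y) = legendreSym l y := by
  rw [legendreSym.mul, pow_two, legendreSym.mul]
  have h1 : legendreSym l x = 1 ∨ legendreSym l x = -1 := by
    apply legendreSym.eq_one_or_neg_one
    intro h0
    exact h ((ZMod.intCast_zmod_eq_zero_iff_dvd x l).1 h0)
  rcases h1 with h1 | h1 <;> rw [h1] <;> ring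

lemma pdvd {l m : ℕ} (hl : l.Prime) (hm : m.Prime) (h : (l : ℤ) ∣ (m : ℤ)) : l = m :=
  (Nat.prime_dvd_prime_iff_eq hl hm).1 (Int.natCast_dvd_natCast.1 h)

lemma pint {l : ℕ} (hl : l.Prime) : Prime (l : ℤ) := Nat.prime_iff_prime_int.1 hl

lemma ndvd2 {l : ℕ} (hl : l.Prime) (h2 : l ≠ 2) : ¬ (l : ℤ) ∣ 2 := by
  intro h
  exact h2 (pdvd hl Nat.prime_two (by exact_mod_cast h))

theorem sc1 (hRla : RlaStmt) (hLa : LaStmt) (hLc : LcStmt) (hLe : LeStmt) (hRea : ReaStmt)
    (hSqf : SQFStmt) : Sc1Stmt := by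
  intro p q r hR d M e N B hQ hpd
  have : Fact p.Prime := ⟨hR.pp⟩
  have : Fact q.Prime := ⟨hR.pq⟩
  have : Fact r.Prime := ⟨hR.pr⟩
  obtain ⟨hr8, s, hS⟩ := hRla (-1) p q r hR
  have hp8 := hR.mp
  have hq8 := hR.mq
  have hpp := pint hR.pp
  have hqp := pint hR.pq
  have hrp := pint hR.pr
  have hr := hR.hr
  have p0 : (0 : ℤ) < p := by exact_mod_cast hR.pp.pos
  have q0 : (0 : ℤ) < q := by exact_mod_cast hR.pq.pos
  have r0 : (0 : ℤ) < r := by exact_mod_cast hR.pr.pos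
  have npq : ¬ (p : ℤ) ∣ q := fun h => hS.npq (pdvd hR.pp hR.pq h)
  have npr : ¬ (p : ℤ) ∣ r := fun h => hS.npr (pdvd hR.pp hR.pr h)
  have nqp : ¬ (q : ℤ) ∣ p := fun h => hS.npq (pdvd hR.pq hR.pp h).symm
  have nqr : ¬ (q : ℤ) ∣ r := fun h => hS.nqr (pdvd hR.pq hR.pr h)
  have nrp : ¬ (r : ℤ) ∣ p := fun h => hS.npr (pdvd hR.pr hR.pp h).symm
  have nrq : ¬ (r : ℤ) ∣ q := fun h => hS.nqr (pdvd hR.pr hR.pq h).symm
  have np2 := ndvd2 hR.pp hS.p2
  have nq2 := ndvd2 hR.pq hS.q2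
  have nr2 := ndvd2 hR.pr hS.r2
  have hb0 : (0 : ℤ) < 2 * p ^ 3 * q ^ 3 * r ^ 2 := by positivity
  have hdisc : (2 * (p : ℤ) ^ 2 * q * r) ^ 2 - 4 * (2 * p ^ 3 * q ^ 3 * r ^ 2) =
      (r : ℤ) ^ 3 * (-(4 * p ^ 3 * q ^ 2)) := by
    have h2 : (p : ℤ) = 2 * q - r := by linarith
    have h3 : (2 * (p : ℤ) ^ 2 * q * r) ^ 2 - 4 * (2 * p ^ 3 * q ^ 3 * r ^ 2) -
      (r : ℤ) ^ 3 * (-(4 * p ^ 3 * q ^ 2)) = 4 * p ^ 3 * q ^ 2 * r ^ 2 * (p - (2 * q - r)) := by ring
    have h4 : (p : ℤ) - (2 * q - r) = 0 := by linarith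
    rw [h4, mul_zero] at h3
    linarith
  -- `d > 0`
  have hd0 : d ≠ 0 := by
    intro h
    have := hQ.hb
    rw [h, zero_mul] at this
    linarith
  have hdpos : 0 < d := by
    by_contra hneg
    have hlt : d < 0 := lt_of_le_of_ne (not_lt.1 hneg) hd0
    have h1 := (hRea _ _ _ _ _ _ _ hQ hlt hb0).2
    rw [hdisc] at h1
    have h2 : (0 : ℤ) < (r : ℤ) ^ 3 * (4 * p ^ 3 * q ^ 2) := by positivity
    nlinarith
  -- support
  have hsup : ∀ l : ℕ, l.Prime → (l : ℤ) ∣ d → l = 2 ∨ l = q ∨ l = r := by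
    intro l hl hld
    have hlb : (l : ℤ) ∣ 2 * p ^ 3 * q ^ 3 * r ^ 2 := hQ.hb ▸ (Dvd.dvd.mul_right hld B)
    have hlp := pint hl
    rcases hlp.dvd_or_dvd hlb with h | h
    · rcases hlp.dvd_or_dvd h with h | h
      · rcases hlp.dvd_or_dvd h with h | h
        · left
          exact pdvd hl Nat.prime_two (by exact_mod_cast h)
        · have := pdvd hl hR.pp (hlp.dvd_of_dvd_pow h)
          rw [this] at hld
          exact absurd hld hpd
      · right; left
        exact pdvd hl hR.pq (hlp.dvd_of_dvd_pow h)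
    · right; right
      exact pdvd hl hR.pr (hlp.dvd_of_dvd_pow h)
  -- symbols
  have hs2 : s * s = 1 := by
    rcases hS.one with h | h <;> rw [h] <;> norm_num
  have h2p := leg_two (l := p) hp8
  have h2q := leg_two (l := q) hq8
  have h2r := leg_two (l := r) hr8
  have hnq := leg_neg (l := q) hq8
  have hPQ := hS.hpQ
  have hPR := hS.hpR
  have hQP := hS.hqP
  have hQR := hS.hqR
  have hRQ := hS.hrQ
  -- at `p`
  have hAp : legendreSym p d = 1 := by
    apply hLa _ _ _ _ _ _ _ hQ p hS.p2 hpd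
    right
    refine ⟨⟨2 * q * r, by ring⟩, ⟨2 * q ^ 3 * r ^ 2, by ring⟩, ?_⟩
    rintro ⟨c, hc⟩
    have h1 : 2 * (q : ℤ) ^ 3 * r ^ 2 = p * c := by
      have h3 : (p : ℤ) ^ 3 ≠ 0 := by positivity
      apply mul_left_cancel₀ h3
      linear_combination hc
    have h2 : (p : ℤ) ∣ 2 * (q : ℤ) ^ 3 * r ^ 2 := ⟨c, h1⟩
    rcases hpp.dvd_or_dvd h2 with h | h
    · rcases hpp.dvd_or_dvd h with h | h
      · exact np2 h
      · exact npq (hpp.dvd_of_dvd_pow h)
    · exact npr (hpp.dvd_of_dvd_pow h)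
  -- at `q`
  have hCq := hLc _ _ _ _ _ _ _ hQ q (2 * p ^ 2 * r) (2 * p ^ 3 * r ^ 2) hS.q2 (by ring) (by ring)
    (by
      intro h
      rcases hqp.dvd_or_dvd h with h | h
      · rcases hqp.dvd_or_dvd h with h | h
        · exact nq2 h
        · exact nqp (hqp.dvd_of_dvd_pow h)
      · exact nqr h)
    (by
      intro h
      rcases hqp.dvd_or_dvd h with h | h
      · rcases hqp.dvd_or_dvd h with h | h
        · exact nq2 h
        · exact nqp (hqp.dvd_of_dvd_pow h)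
      · exact nqr (hqp.dvd_of_dvd_pow h))
  have hab : legendreSym q (-((2 * p ^ 2 * r) * (2 * p ^ 3 * r ^ 2) : ℤ)) = 1 := by
    have h1 : (-((2 * p ^ 2 * r) * (2 * p ^ 3 * r ^ 2) : ℤ)) =
      (2 * p ^ 2 * r) ^ 2 * ((-1) * ((p : ℤ) * r)) := by ring
    rw [h1, leg_sq _ _ _, legendreSym.mul, legendreSym.mul, hnq, hQP, hQR]
    · linarith
    · intro h
      rcases hqp.dvd_or_dvd h with h | h
      · rcases hqp.dvd_or_dvd h with h | h
        · exact nq2 h
        · exact nqp (hqp.dvd_of_dvd_pow h)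
      · exact nqr h
  have hCq1 : ¬ (q : ℤ) ∣ d → legendreSym q d = 1 := by
    intro h
    rcases hCq.1 h with h1 | h1
    · exact h1
    · rw [h1, hab]
  have hCq2 : ∀ d₁ : ℤ, d = q * d₁ → legendreSym q d₁ = s := by
    intro d₁ hd
    rcases hCq.2 d₁ hd with h1 | h1
    · have h2 : (2 * (p : ℤ) ^ 3 * r ^ 2) * d₁ = (p * r) ^ 2 * (2 * (p * d₁)) := by ring
      rw [h2, leg_sq _ _ _, legendreSym.mul, legendreSym.mul, h2q, hQP] at h1
      · calc legendreSym q d₁ = s * s * legendreSym q d₁ := by rw [hs2, one_mul]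
          _ = s * (-1 * (-s * legendreSym q d₁)) := by ring
          _ = s := by rw [h1, mul_one]
      · intro h
        rcases hqp.dvd_or_dvd h with h | h
        · exact nqp h
        · exact nqr h
    · have h2 : (-(2 * (p : ℤ) ^ 2 * r * d₁)) = p ^ 2 * ((-1) * (2 * (r * d₁))) := by ring
      rw [h2, leg_sq _ _ nqp, legendreSym.mul, legendreSym.mul, legendreSym.mul, hnq, h2q, hQR] at h1
      calc legendreSym q d₁ = s * s * legendreSym q d₁ := by rw [hs2, one_mul]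
        _ = s * (-1 * (-1 * (s * legendreSym q d₁))) := by ring
        _ = s := by rw [h1, mul_one]
  -- at `r`
  have hEr := (hLe _ _ _ _ _ _ _ hQ r (2 * p ^ 2 * q) (2 * p ^ 3 * q ^ 3) (-(4 * p ^ 3 * q ^ 2)) hS.r2
    (by ring) (by ring) hdisc
    (by
      intro h
      rcases hrp.dvd_or_dvd h with h | h
      · rcases hrp.dvd_or_dvd h with h | h
        · exact nr2 h
        · exact nrp (hrp.dvd_of_dvd_pow h)
      · exact nrq h)
    (by
      intro h
      rw [dvd_neg] at h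
      rcases hrp.dvd_or_dvd h with h | h
      · rcases hrp.dvd_or_dvd h with h | h
        · have h4 : (r : ℤ) ∣ 2 ^ 2 := by norm_num; exact h
          exact nr2 (hrp.dvd_of_dvd_pow h4)
        · exact nrp (hrp.dvd_of_dvd_pow h)
      · exact nrq (hrp.dvd_of_dvd_pow h))).1
  -- the cases
  obtain ⟨ε, hε, hcase⟩ := (hSqf d q r hQ.sqf hR.pq hR.pr hS.q2 hS.r2 hS.nqr).2 hsup
  have hε1 : ε = 1 := by
    rcases hε with h | h
    · exact h
    · exfalso
      have q0r0 : (0 : ℤ) < q * r := by positivity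
      rw [h] at hcase
      rcases hcase with h | h | h | h | h | h | h | h <;> linarith
  rw [hε1] at hcase
  simp only [one_mul] at hcase
  have hs : s = 1 ∨ s = -1 := hS.one
  rcases hcase with h | h | h | h | h | h | h | h
  · exact h
  · -- 2
    rw [h, h2p] at hAp
    norm_num at hAp
  · -- q
    exfalso
    have h1 : ¬ (r : ℤ) ∣ d := by rw [h]; exact nrq
    have h2 := hEr h1
    rw [h] at hAp h2
    rw [hPQ] at hAp
    rw [hRQ] at h2
    omega
  · -- 2q
    exfalso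
    have h1 : ¬ (r : ℤ) ∣ d := by
      rw [h]; intro h'
      rcases hrp.dvd_or_dvd h' with h' | h'
      · exact nr2 h'
      · exact nrq h'
    have h2 := hEr h1
    rw [h] at hAp h2
    rw [legendreSym.mul, h2p, hPQ] at hAp
    rw [legendreSym.mul, h2r, hRQ] at h2
    omega
  · -- r
    exfalso
    have h1 : ¬ (q : ℤ) ∣ d := by rw [h]; exact nqr
    have h2 := hCq1 h1
    rw [h] at hAp h2
    rw [hPR] at hAp
    rw [hQR] at h2
    omega
  · -- 2r
    exfalso
    have h1 : ¬ (q : ℤ) ∣ d := by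
      rw [h]; intro h'
      rcases hqp.dvd_or_dvd h' with h' | h'
      · exact nq2 h'
      · exact nqr h'
    have h2 := hCq1 h1
    rw [h] at hAp h2
    rw [legendreSym.mul, h2p, hPR] at hAp
    rw [legendreSym.mul, h2q, hQR] at h2
    omega
  · -- qr
    exfalso
    rw [h, legendreSym.mul, hPQ, hPR] at hAp
    nlinarith
  · -- 2qr
    exfalso
    have h1 := hCq2 (2 * r) (by rw [h]; ring)
    rw [legendreSym.mul, h2q, hQR] at h1
    omega

end Pool.Agent.G02.H95
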